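import Pool.Agent.Lib_helper45.HM.B2b
import Pool.Agent.Lib_helper69.HM.Z1
import Pool.Agent.Lib_helper69.HM.Z2

open MeasureTheory Finset Filter
open scoped ENNReal

namespace Pool.Agent.HM


theorem B2c_num {C ε : ℝ} (hC : 0 < C) (hε : 0 < ε) {k : ℕ} (hk : 2 ≤ k)
    (hk1 : 17 * C / ε ≤ k) (hk2 : 2 * C ≤ k) :
    C * (2 * (k : ℝ)) ≤ ((k ^ 4 : ℕ) : ℝ) ∧
    C * (((k ^ 4 : ℕ) : ℝ) * (2 * (k : ℝ)) * (Real.log ((k ^ 4 : ℕ) : ℝ) + (2 * (k : ℝ)) ^ 2) +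
      ((k ^ 4 : ℕ) : ℝ)) ≤ ε * (k : ℝ) ^ 9 := by
  obtain ⟨x, hx⟩ : ∃ x : ℝ, x = (k : ℝ) := ⟨_, rfl⟩
  have hx2 : (2 : ℝ) ≤ x := by rw [hx]; exact_mod_cast hk
  have hx1 : (1 : ℝ) ≤ x := by linarith
  have hx0 : (0 : ℝ) < x := by linarith
  have hcast : ((k ^ 4 : ℕ) : ℝ) = x ^ 4 := by rw [hx]; push_cast; rfl
  rw [hcast, ← hx]
  rw [← hx] at hk1 hk2
  have p2 : x ≤ x ^ 2 := by nlinarith
  have p7 : 0 ≤ x ^ 7 := by positivity
  constructor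
  · have h1 : x ^ 2 ≤ x ^ 4 := pow_le_pow_right₀ hx1 (by norm_num)
    calc C * (2 * x) = (2 * C) * x := by ring
      _ ≤ x * x := mul_le_mul_of_nonneg_right hk2 hx0.le
      _ = x ^ 2 := by ring
      _ ≤ x ^ 4 := h1
  · have hlog : Real.log (x ^ 4) ≤ 4 * x := by
      rw [Real.log_pow]
      have h1 := Real.log_le_sub_one_of_pos hx0
      push_cast
      linarith
    have h46 : x ^ 4 ≤ x ^ 7 := pow_le_pow_right₀ hx1 (by norm_num)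
    have h67 : x ^ 6 ≤ x ^ 7 := pow_le_pow_right₀ hx1 (by norm_num)
    have h5 : 0 ≤ x ^ 4 * (2 * x) := by positivity
    have e1 : x ^ 4 * (2 * x) * (Real.log (x ^ 4) + (2 * x) ^ 2) + x ^ 4 ≤ 17 * x ^ 7 := by
      calc x ^ 4 * (2 * x) * (Real.log (x ^ 4) + (2 * x) ^ 2) + x ^ 4
          ≤ x ^ 4 * (2 * x) * (4 * x + (2 * x) ^ 2) + x ^ 4 :=
            add_le_add (mul_le_mul_of_nonneg_left (add_le_add hlog (le_refl _)) h5) (le_refl _)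
        _ = 8 * x ^ 6 + 8 * x ^ 7 + x ^ 4 := by ring
        _ ≤ 8 * x ^ 7 + 8 * x ^ 7 + x ^ 7 :=
            add_le_add (add_le_add (mul_le_mul_of_nonneg_left h67 (by norm_num)) (le_refl _)) h46
        _ = 17 * x ^ 7 := by ring
    have e2 : 17 * C ≤ ε * x ^ 2 := by
      have h1 : 17 * C ≤ x * ε := (div_le_iff₀ hε).mp hk1
      calc 17 * C ≤ x * ε := h1
        _ = ε * x := mul_comm _ _
        _ ≤ ε * x ^ 2 := mul_le_mul_of_nonneg_left p2 hε.le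
    calc C * (x ^ 4 * (2 * x) * (Real.log (x ^ 4) + (2 * x) ^ 2) + x ^ 4)
        ≤ C * (17 * x ^ 7) := mul_le_mul_of_nonneg_left e1 hC.le
      _ = (17 * C) * x ^ 7 := by ring
      _ ≤ (ε * x ^ 2) * x ^ 7 := mul_le_mul_of_nonneg_right e2 p7
      _ = ε * x ^ 9 := by ring

/-- boundary values `2 k` in the box `k ^ 4` -/
theorem ramp {ρ : ℝ → ℝ} (hρ : EdgeWeight ρ) {m : ℝ} (hm : 0 < m) {ε : ℝ} (hε : 0 < ε) :
    ∀ᶠ k : ℕ in atTop, lm (box (k ^ 4)) (wt ρ m zstp (box (k ^ 4))) 0 ≤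
      ENNReal.ofReal (Real.exp (ε * k ^ 9)) *
        lm (box (k ^ 4)) (wt ρ m zstp (box (k ^ 4))) (fun _ => 2 * k) := by
  obtain ⟨C, hC, h⟩ := ramp_finite hρ hm
  filter_upwards [eventually_ge_atTop 2, eventually_ge_atTop ⌈17 * C / ε⌉₊,
    eventually_ge_atTop ⌈2 * C⌉₊] with k hk hk1 hk2
  have hk1' : 17 * C / ε ≤ k := (Nat.le_ceil _).trans (by exact_mod_cast hk1)
  have hk2' : 2 * C ≤ k := (Nat.le_ceil _).trans (by exact_mod_cast hk2)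
  obtain ⟨h1, h2⟩ := B2c_num hC hε hk hk1' hk2'
  have hR : 2 ≤ k ^ 4 := by
    calc 2 ≤ k := hk
      _ = k ^ 1 := (pow_one k).symm
      _ ≤ k ^ 4 := Nat.pow_le_pow_right (by omega) (by norm_num)
  have hc : (1 : ℝ) ≤ 2 * (k : ℝ) := by
    have : (2 : ℝ) ≤ k := by exact_mod_cast hk
    linarith
  refine (h (k ^ 4) hR (2 * (k : ℝ)) hc h1).trans ?_
  exact mul_le_mul_left (ENNReal.ofReal_le_ofReal (Real.exp_le_exp.mpr h2)) _

end Pool.Agent.HM
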